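import Pool.Agent.Y922.AP.Stm2

/-!
# Project AP: from numbers to functions
-/

set_option autoImplicit false

open Filter Topology Set

namespace Pool.Agent.Y977.AP

open Pool.Agent.Y922.AP

theorem t_FUN : S_FUN := by
  classical
  intro X hX hK n P hP a₀ g hg hXg hinj
  have hF : AnalyticAt ℂ (fun a => MvPolynomial.eval (fun o : Option (Fin n) => o.elim a fun i => g i a) P) a₀ := by
    have h1 := AnalyticAt.aeval_mvPolynomial (𝕜 := ℂ) (z := a₀)
      (f := fun a (o : Option (Fin n)) => o.elim a fun i => g i a) (by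
        intro o
        rcases o with _ | i
        · exact analyticAt_id
        · exact hg i) P
    exact h1
  rcases hF.eventually_eq_zero_or_eventually_ne_zero with h0 | h0
  swap
  · exact h0
  exfalso
  -- the field of the coefficients
  let K : Subfield ℂ := Subfield.closure (P.coeffs : Set ℂ)
  have hKc : Countable K := by
    rw [← Cardinal.mk_le_aleph0_iff]
    refine (Subfield.cardinalMk_closure_le_max _).trans (max_le ?_ le_rfl)
    rw [Cardinal.mk_le_aleph0_iff]
    exact P.coeffs.countable_toSet.to_subtype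
  obtain ⟨PK, hPK⟩ : ∃ PK : MvPolynomial (Option (Fin n)) K, MvPolynomial.map (algebraMap K ℂ) PK = P := by
    have h1 : P ∈ Set.range (MvPolynomial.map (algebraMap K ℂ)) := by
      rw [MvPolynomial.mem_range_map_iff_coeffs_subset]
      intro c hc
      exact ⟨⟨c, Subfield.subset_closure hc⟩, rfl⟩
    exact h1
  have hPK0 : PK ≠ 0 := by
    rintro rfl
    exact hP (by rw [← hPK, map_zero])
  have hpair : ∀ᶠ a in 𝓝 a₀, ∀ i j, i ≠ j → g i a ≠ g j a := by
    rw [eventually_all]
    intro i
    rw [eventually_all]
    intro j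
    by_cases hij : i = j
    · exact Eventually.of_forall fun a h => absurd hij h
    · have h1 : g i a₀ ≠ g j a₀ := fun h => hij (hinj h)
      have h2 : ∀ᶠ a in 𝓝 a₀, g i a - g j a ≠ 0 :=
        ((hg i).continuousAt.sub (hg j).continuousAt).eventually_ne (sub_ne_zero.2 h1)
      filter_upwards [h2] with a ha _
      exact sub_ne_zero.1 ha
  have hall : ∀ᶠ a in 𝓝 a₀, ∀ i, X (g i a) = a := by
    rw [eventually_all]
    exact hXg
  obtain ⟨a, ha1, ha2, ha3, ha4⟩ := ((hK K hKc).dense_compl ℂ).inter_nhds_nonempty (h0.and (hall.and hpair))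
  apply ha1
  refine ⟨n, fun i => g i a, ?_, ha3, ?_⟩
  · intro i j hij
    by_contra hne
    exact ha4 i j hne hij
  · intro hind
    apply hPK0
    refine (algebraicIndependent_iff.1 hind) PK ?_
    rw [MvPolynomial.aeval_def, ← MvPolynomial.eval_map, hPK]
    exact ha2

end Pool.Agent.Y977.AP
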